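import Pool.Agent.H8K1.CL.Basic

/-!
# Intervals in the lattice of the preorders on a finite set

`I.T`: the transitive relations `r` with `I.Q ⊆ r ⊆ I.S`, where `I.Q` is a preorder and `I.S` is
transitive (helper65).
-/

set_option autoImplicit false

namespace Pool.Agent.Helper65.PO

open Pool.Agent.R636.FL Pool.Agent.H8K1.CL

universe u

/-- the ends of an interval -/
structure Itv (X : Type u) where
  /-- the lower end -/
  Q : X → X → Prop
  /-- the upper end -/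
  S : X → X → Prop
  rfl' : ∀ x, Q x x
  trans : ∀ {x y z}, Q x y → Q y z → Q x z
  strans : ∀ {x y z}, S x y → S y z → S x z
  le : ∀ {x y}, Q x y → S x y

variable {X : Type u}

/-- the interval -/
def Itv.T (I : Itv X) : Type u := {r : X → X → Prop // (∀ x y z, r x y → r y z → r x z) ∧
  (∀ x y, I.Q x y → r x y) ∧ ∀ x y, r x y → I.S x y}

variable (I : Itv X)

instance : PartialOrder I.T := Subtype.partialOrder _

theorem le_iff' {r s : I.T} : r ≤ s ↔ ∀ x y, r.1 x y → s.1 x y := Iff.rfl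

/-- constructor -/
def Itv.mk' (I : Itv X) (r : X → X → Prop) (h1 : ∀ x y z, r x y → r y z → r x z)
    (h2 : ∀ x y, I.Q x y → r x y) (h3 : ∀ x y, r x y → I.S x y) : I.T := ⟨r, h1, h2, h3⟩

instance : InfSet I.T where
  sInf A := ⟨fun x y => I.S x y ∧ ∀ r ∈ A, r.1 x y,
    fun _ _ _ h1 h2 => ⟨I.strans h1.1 h2.1, fun r hr => r.2.1 _ _ _ (h1.2 r hr) (h2.2 r hr)⟩,
    fun _ _ h => ⟨I.le h, fun r _ => r.2.2.1 _ _ h⟩, fun _ _ h => h.1⟩

theorem sInf_val {A : Set I.T} {x y : X} : (sInf A).1 x y ↔ I.S x y ∧ ∀ r ∈ A, r.1 x y := Iff.rfl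

instance : CompleteLattice I.T := completeLatticeOfInf I.T (fun A => by
  constructor
  · intro r hr x y h
    exact ((sInf_val I).1 h).2 r hr
  · intro r hr x y h
    exact (sInf_val I).2 ⟨r.2.2.2 _ _ h, fun s hs => hr hs x y h⟩)

variable {I}

theorem inf_val {r s : I.T} {x y : X} : (r ⊓ s).1 x y ↔ r.1 x y ∧ s.1 x y := by
  constructor
  · intro h
    exact ⟨(inf_le_left : r ⊓ s ≤ r) x y h, (inf_le_right : r ⊓ s ≤ s) x y h⟩
  · intro h
    have h1 : I.mk' (fun x y => r.1 x y ∧ s.1 x y)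
        (fun _ _ _ h1 h2 => ⟨r.2.1 _ _ _ h1.1 h2.1, s.2.1 _ _ _ h1.2 h2.2⟩)
        (fun _ _ h => ⟨r.2.2.1 _ _ h, s.2.2.1 _ _ h⟩) (fun _ _ h => r.2.2.2 _ _ h.1) ≤ r ⊓ s :=
      le_inf (fun x y h => h.1) (fun x y h => h.2)
    exact h1 x y h

theorem T.refl (r : I.T) (x : X) : r.1 x x := r.2.2.1 _ _ (I.rfl' x)

instance [Finite X] : Finite I.T := by
  have : Finite (X → X → Prop) := inferInstance
  exact Subtype.finite

/-- the relation generated by one pair -/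
def gen {x y : X} (h : I.S x y) : I.T := I.mk' (fun u v => I.Q u v ∨ (I.Q u x ∧ I.Q y v))
  (fun a b c h1 h2 => by
    rcases h1 with h1 | h1
    · rcases h2 with h2 | h2
      · exact Or.inl (I.trans h1 h2)
      · exact Or.inr ⟨I.trans h1 h2.1, h2.2⟩
    · rcases h2 with h2 | h2
      · exact Or.inr ⟨h1.1, I.trans h1.2 h2⟩
      · exact Or.inr ⟨h1.1, h2.2⟩)
  (fun _ _ h => Or.inl h)
  (fun _ _ h1 => h1.elim I.le (fun h2 => I.strans (I.le h2.1) (I.strans h (I.le h2.2))))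

theorem gen_iff {x y : X} (h : I.S x y) {u v : X} :
    (gen h).1 u v ↔ I.Q u v ∨ (I.Q u x ∧ I.Q y v) := Iff.rfl

theorem gen_self {x y : X} (h : I.S x y) : (gen h).1 x y := Or.inr ⟨I.rfl' x, I.rfl' y⟩

theorem gen_le {x y : X} (h : I.S x y) {U : I.T} : gen h ≤ U ↔ U.1 x y := by
  constructor
  · intro h1
    exact h1 x y (gen_self h)
  · intro h1 u v h2
    rcases h2 with h2 | h2
    · exact U.2.2.1 _ _ h2
    · exact U.2.1 _ _ _ (U.2.2.1 _ _ h2.1) (U.2.1 _ _ _ h1 (U.2.2.1 _ _ h2.2))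

theorem gen_supIrred {x y : X} (h : I.S x y) (hQ : ¬ I.Q x y)
    (hK : ∀ w, (I.Q x w ∨ I.Q y w) → (I.Q w x ∨ I.Q w y) →
      (I.Q x w ∧ I.Q w x) ∨ (I.Q y w ∧ I.Q w y)) : SupIrred (gen h) := by
  -- the lower cover
  let K : I.T := I.mk' (fun u v => (gen h).1 u v ∧ ¬ ((I.Q u x ∧ I.Q x u) ∧ (I.Q v y ∧ I.Q y v)))
    (fun u w v h1 h2 => by
      refine ⟨(gen h).2.1 _ _ _ h1.1 h2.1, fun h3 => ?_⟩
      have e1 : I.Q x w ∨ I.Q y w := h1.1.elim (fun h4 => Or.inl (I.trans h3.1.2 h4))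
        (fun h4 => Or.inr h4.2)
      have e2 : I.Q w x ∨ I.Q w y := h2.1.elim (fun h4 => Or.inr (I.trans h4 h3.2.1))
        (fun h4 => Or.inl h4.1)
      rcases hK w e1 e2 with h5 | h5
      · exact h2.2 ⟨⟨h5.2, h5.1⟩, h3.2⟩
      · exact h1.2 ⟨h3.1, ⟨h5.2, h5.1⟩⟩)
    (fun u v h1 => ⟨Or.inl h1, fun h3 => hQ (I.trans h3.1.2 (I.trans h1 h3.2.1))⟩)
    (fun u v h1 => (gen h).2.2.2 _ _ h1.1)
  have hlow : ∀ b : I.T, b ≤ gen h → b ≠ gen h → b ≤ K := by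
    intro b hb hne u v huv
    refine ⟨hb u v huv, fun h3 => hne (le_antisymm hb ((gen_le h).2 ?_))⟩
    exact b.2.1 _ _ _ (b.2.2.1 _ _ h3.1.2) (b.2.1 _ _ _ huv (b.2.2.1 _ _ h3.2.1))
  have hK' : ¬ gen h ≤ K := fun h1 =>
    (h1 x y (gen_self h)).2 ⟨⟨I.rfl' x, I.rfl' x⟩, ⟨I.rfl' y, I.rfl' y⟩⟩
  refine ⟨fun hmin => ?_, ?_⟩
  · have h1 : K ≤ gen h := fun u v h1 => h1.1
    exact hK' (hmin h1)
  · intro b c hbc
    by_contra hcon
    push Not at hcon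
    have hb : b ≤ gen h := by rw [← hbc]; exact le_sup_left
    have hc : c ≤ gen h := by rw [← hbc]; exact le_sup_right
    apply hK'
    rw [← hbc]
    exact sup_le (hlow b hb hcon.1) (hlow c hc hcon.2)

/-- the interval above a member -/
def above (J : I.T) : Itv X where
  Q := J.1
  S := I.S
  rfl' := T.refl J
  trans := fun h1 h2 => J.2.1 _ _ _ h1 h2
  strans := I.strans
  le := fun h => J.2.2.2 _ _ h

def aboveIso (J : I.T) : (above J).T ≃o Set.Ici J where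
  toFun r := ⟨⟨r.1, r.2.1, fun x y h => r.2.2.1 _ _ (J.2.2.1 _ _ h), r.2.2.2⟩, fun x y h => r.2.2.1 _ _ h⟩
  invFun r := ⟨r.1.1, r.1.2.1, fun x y h => r.2 x y h, r.1.2.2.2⟩
  left_inv _ := rfl
  right_inv _ := rfl
  map_rel_iff' := Iff.rfl

/-- the step of the induction -/
theorem step [Finite X] {x y : X} (h : I.S x y) (hQ : ¬ I.Q x y)
    (hK : ∀ w, (I.Q x w ∨ I.Q y w) → (I.Q w x ∨ I.Q w y) →
      (I.Q x w ∧ I.Q w x) ∨ (I.Q y w ∧ I.Q w y)) (N : I.T) (hN : ¬ N.1 x y)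
    (hrec : ∀ U : I.T, U.1 x y → ∀ a b, U.1 a b → ¬ N.1 a b → (gen h ⊔ (U ⊓ N)).1 a b)
    (ih : Good (above (gen h)).T) : Good I.T := by
  refine good_step (gen_supIrred h hQ hK) (N := N) (fun h1 => hN ((gen_le h).1 h1)) (fun U hU => ?_)
    (ih.congr (aboveIso (gen h)))
  refine le_antisymm (sup_le hU inf_le_left) ?_
  intro a b hab
  by_cases hn : N.1 a b
  · exact (le_sup_right : U ⊓ N ≤ gen h ⊔ (U ⊓ N)) a b (inf_val.2 ⟨hab, hn⟩)
  · exact hrec U ((gen_le h).1 hU) a b hab hn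

end Pool.Agent.Helper65.PO
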