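import Pool.Agent.Helper65.PO.Itv

/-!
# Every interval in the lattice of the preorders on a finite set is good (helper65)
-/

set_option autoImplicit false

namespace Pool.Agent.Helper65.PO

open Pool.Agent.R636.FL Pool.Agent.H8K1.CL

universe u

variable {X : Type u} {I : Itv X}

theorem sup_gen {x y : X} (h : I.S x y) {U N : I.T} {a b : X} (ha : I.Q a x)
    (hb : U.1 y b ∧ N.1 y b) : (gen h ⊔ (U ⊓ N)).1 a b := by
  have h1 : (gen h ⊔ (U ⊓ N)).1 a y := (le_sup_left : gen h ≤ gen h ⊔ (U ⊓ N)) a y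
    (Or.inr ⟨ha, I.rfl' y⟩)
  exact (gen h ⊔ (U ⊓ N)).2.1 _ _ _ h1
    ((le_sup_right : U ⊓ N ≤ gen h ⊔ (U ⊓ N)) y b (inf_val.2 hb))

/-- case 1: some class of `S` is not an antichain for `Q` -/
theorem case_one [Finite X] (h1 : ∃ x y, I.S x y ∧ I.Q y x ∧ ¬ I.Q x y)
    (ih : ∀ {x y : X} (h : I.S x y), ¬ I.Q x y → Good (above (gen h)).T) : Good I.T := by
  classical
  have := Fintype.ofFinite X
  let f : X → ℕ := fun x => (Finset.univ.filter fun u => I.Q u x).card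
  have hf' : ∀ {x y : X}, I.Q x y → f y ≤ f x → I.Q y x := by
    intro x y h h2
    have h3 : (Finset.univ.filter fun u => I.Q u x) = Finset.univ.filter fun u => I.Q u y :=
      Finset.eq_of_subset_of_card_le (fun u hu => by
        rw [Finset.mem_filter] at hu ⊢
        exact ⟨hu.1, I.trans hu.2 h⟩) h2
    have h4 : y ∈ Finset.univ.filter fun u => I.Q u y := by simp [I.rfl' y]
    rw [← h3, Finset.mem_filter] at h4
    exact h4.2
  -- `x`
  obtain ⟨x, hx, hmax⟩ := Finset.exists_max_image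
    (Finset.univ.filter fun x => ∃ y, I.S x y ∧ I.Q y x ∧ ¬ I.Q x y) f (by
      obtain ⟨x, y, h⟩ := h1
      exact ⟨x, by simp only [Finset.mem_filter, Finset.mem_univ, true_and]; exact ⟨y, h⟩⟩)
  simp only [Finset.mem_filter, Finset.mem_univ, true_and] at hx hmax
  -- `x` is maximal in its class
  have hxmax : ∀ z, I.S z x → I.Q x z → I.Q z x := by
    intro z hzx hxz
    by_contra hcon
    obtain ⟨y, h2, h3, h4⟩ := hx
    have h5 := hmax z ⟨y, I.strans hzx h2, I.trans h3 hxz, fun h6 => hcon (I.trans h6 h3)⟩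
    exact hcon (hf' hxz h5)
  obtain ⟨y, hy, hymax⟩ := Finset.exists_max_image
    (Finset.univ.filter fun y => I.S x y ∧ I.Q y x ∧ ¬ I.Q x y) f (by
      obtain ⟨y, h⟩ := hx
      exact ⟨y, by simp only [Finset.mem_filter, Finset.mem_univ, true_and]; exact h⟩)
  simp only [Finset.mem_filter, Finset.mem_univ, true_and] at hy hymax
  obtain ⟨hS, hyx, hxy⟩ := hy
  have hcover : ∀ w, I.Q y w → I.Q w x → (I.Q x w ∧ I.Q w x) ∨ (I.Q y w ∧ I.Q w y) := by
    intro w h2 h3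
    by_cases h4 : I.Q x w
    · exact Or.inl ⟨h4, h3⟩
    · right
      have h5 := hymax w ⟨I.strans hS (I.le h2), h3, h4⟩
      exact ⟨h2, hf' h2 h5⟩
  let N : I.T := I.mk' (fun u v => I.S u v ∧
      ¬ ((I.Q u x ∧ I.Q x u) ∧ I.S v x ∧ ¬ (I.Q v x ∧ I.Q x v)))
    (fun u w v h2 h3 => by
      refine ⟨I.strans h2.1 h3.1, fun h4 => ?_⟩
      have h5 : I.S w x := I.strans h3.1 h4.2.1
      by_cases h6 : I.Q w x ∧ I.Q x w
      · exact h3.2 ⟨h6, h4.2⟩
      · exact h2.2 ⟨h4.1, h5, h6⟩)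
    (fun u v h2 => ⟨I.le h2, fun h3 =>
      h3.2.2 ⟨hxmax v h3.2.1 (I.trans h3.1.2 h2), I.trans h3.1.2 h2⟩⟩)
    (fun u v h2 => h2.1)
  refine step hS hxy ?_ N ?_ ?_ (ih hS hxy)
  · intro w h2 h3
    have h4 : I.Q y w := h2.elim (fun h => I.trans hyx h) id
    have h5 : I.Q w x := h3.elim id (fun h => I.trans h hyx)
    exact hcover w h4 h5
  · intro h2
    exact h2.2 ⟨⟨I.rfl' x, I.rfl' x⟩, I.le hyx, fun h3 => hxy h3.2⟩
  · intro U hU a b hab hn
    have h2 : (I.Q a x ∧ I.Q x a) ∧ I.S b x ∧ ¬ (I.Q b x ∧ I.Q x b) := by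
      by_contra hcon
      exact hn ⟨U.2.2.2 _ _ hab, hcon⟩
    have h3 : U.1 y b := U.2.1 _ _ _ (U.2.2.1 _ _ (I.trans hyx h2.1.2)) hab
    exact sup_gen hS h2.1.1 ⟨h3, U.2.2.2 _ _ h3, fun h4 => hxy h4.1.2⟩

/-- case 3: `S` is antisymmetric modulo `Q` -/
theorem case_three [Finite X] (hanti : ∀ x y, I.S x y → I.S y x → I.Q x y)
    (h1 : ∃ x y, I.S x y ∧ ¬ I.Q x y)
    (ih : ∀ {x y : X} (h : I.S x y), ¬ I.Q x y → Good (above (gen h)).T) : Good I.T := by
  classical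
  have := Fintype.ofFinite X
  let g : X × X → ℕ := fun p => (Finset.univ.filter fun z => I.S p.1 z ∧ I.S z p.2).card
  obtain ⟨⟨x, y⟩, hp, hmin⟩ := Finset.exists_min_image
    (Finset.univ.filter fun p : X × X => I.S p.1 p.2 ∧ ¬ I.Q p.1 p.2) g (by
      obtain ⟨x, y, h⟩ := h1
      exact ⟨(x, y), by simp only [Finset.mem_filter, Finset.mem_univ, true_and]; exact h⟩)
  simp only [Finset.mem_filter, Finset.mem_univ, true_and] at hp hmin
  obtain ⟨hS, hQ⟩ := hp
  have hyx : ¬ I.S y x := fun h => hQ (hanti x y hS h)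
  -- nothing strictly between
  have hbet : ∀ z, I.S x z → I.S z y → (I.Q z x ∧ I.Q x z) ∨ (I.Q z y ∧ I.Q y z) := by
    intro z hxz hzy
    by_cases hxz' : I.Q x z
    · by_cases hzy' : I.Q z y
      · exact absurd (I.trans hxz' hzy') hQ
      · left
        by_contra hcon
        have h2 := hmin (z, y) ⟨hzy, hzy'⟩
        have h3 : (Finset.univ.filter fun w => I.S z w ∧ I.S w y) ⊂
            Finset.univ.filter fun w => I.S x w ∧ I.S w y := by
          rw [Finset.ssubset_iff_subset_ne]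
          refine ⟨fun w hw => ?_, fun heq => ?_⟩
          · simp only [Finset.mem_filter, Finset.mem_univ, true_and] at hw ⊢
            exact ⟨I.strans hxz hw.1, hw.2⟩
          · have h4 : x ∈ Finset.univ.filter fun w => I.S x w ∧ I.S w y := by
              simp only [Finset.mem_filter, Finset.mem_univ, true_and]
              exact ⟨I.le (I.rfl' x), hS⟩
            rw [← heq] at h4
            simp only [Finset.mem_filter, Finset.mem_univ, true_and] at h4
            exact hcon ⟨hanti z x h4.1 hxz, hxz'⟩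
        exact absurd h2 (not_le.2 (Finset.card_lt_card h3))
    · right
      by_contra hcon
      have h2 := hmin (x, z) ⟨hxz, hxz'⟩
      have h3 : (Finset.univ.filter fun w => I.S x w ∧ I.S w z) ⊂
          Finset.univ.filter fun w => I.S x w ∧ I.S w y := by
        rw [Finset.ssubset_iff_subset_ne]
        refine ⟨fun w hw => ?_, fun heq => ?_⟩
        · simp only [Finset.mem_filter, Finset.mem_univ, true_and] at hw ⊢
          exact ⟨hw.1, I.strans hw.2 hzy⟩
        · have h4 : y ∈ Finset.univ.filter fun w => I.S x w ∧ I.S w y := by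
            simp only [Finset.mem_filter, Finset.mem_univ, true_and]
            exact ⟨hS, I.le (I.rfl' y)⟩
          rw [← heq] at h4
          simp only [Finset.mem_filter, Finset.mem_univ, true_and] at h4
          exact hcon ⟨hanti z y hzy h4.2, hanti y z h4.2 hzy⟩
      exact absurd h2 (not_le.2 (Finset.card_lt_card h3))
  let N : I.T := I.mk' (fun u v => I.S u v ∧ ¬ ((I.Q u x ∧ I.Q x u) ∧ (I.Q v y ∧ I.Q y v)))
    (fun u w v h2 h3 => by
      refine ⟨I.strans h2.1 h3.1, fun h4 => ?_⟩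
      rcases hbet w (I.strans (I.le h4.1.2) h2.1) (I.strans h3.1 (I.le h4.2.1)) with h5 | h5
      · exact h3.2 ⟨h5, h4.2⟩
      · exact h2.2 ⟨h4.1, h5⟩)
    (fun u v h2 => ⟨I.le h2, fun h3 => hQ (I.trans h3.1.2 (I.trans h2 h3.2.1))⟩)
    (fun u v h2 => h2.1)
  refine step hS hQ ?_ N ?_ ?_ (ih hS hQ)
  · intro w h2 h3
    rcases h2 with h2 | h2
    · rcases h3 with h3 | h3
      · exact Or.inl ⟨h2, h3⟩
      · exact absurd (I.trans h2 h3) hQ
    · rcases h3 with h3 | h3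
      · exact absurd (I.le (I.trans h2 h3)) hyx
      · exact Or.inr ⟨h2, h3⟩
  · intro h2
    exact h2.2 ⟨⟨I.rfl' x, I.rfl' x⟩, ⟨I.rfl' y, I.rfl' y⟩⟩
  · intro U hU a b hab hn
    have h2 : (I.Q a x ∧ I.Q x a) ∧ (I.Q b y ∧ I.Q y b) := by
      by_contra hcon
      exact hn ⟨U.2.2.2 _ _ hab, hcon⟩
    refine sup_gen hS h2.1.1 ⟨U.2.2.1 _ _ h2.2.2, I.le h2.2.2, fun h4 => hQ h4.1.2⟩

/-- case 2: an antichain with two elements -/
theorem case_two [Finite X] (hac : ∀ u v, I.S v u → I.Q u v → I.Q v u) {x y : X} (hS : I.S x y)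
    (hS' : I.S y x) (hQ : ¬ I.Q x y)
    (htwo : ∀ z, I.S x z → I.S z x → (I.Q z x ∧ I.Q x z) ∨ (I.Q z y ∧ I.Q y z))
    (ih : ∀ {x y : X} (h : I.S x y), ¬ I.Q x y → Good (above (gen h)).T) : Good I.T := by
  have hQ' : ¬ I.Q y x := fun h => hQ (hac y x hS h)
  let N : I.T := I.mk' (fun u v => I.S u v ∧ ¬ ((I.Q u x ∧ I.Q x u) ∧ (I.Q v y ∧ I.Q y v)))
    (fun u w v h2 h3 => by
      refine ⟨I.strans h2.1 h3.1, fun h4 => ?_⟩
      rcases htwo w (I.strans (I.le h4.1.2) h2.1)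
        (I.strans (I.strans h3.1 (I.le h4.2.1)) hS') with h5 | h5
      · exact h3.2 ⟨h5, h4.2⟩
      · exact h2.2 ⟨h4.1, h5⟩)
    (fun u v h2 => ⟨I.le h2, fun h3 => hQ (I.trans h3.1.2 (I.trans h2 h3.2.1))⟩)
    (fun u v h2 => h2.1)
  refine step hS hQ ?_ N ?_ ?_ (ih hS hQ)
  · intro w h2 h3
    rcases h2 with h2 | h2
    · rcases h3 with h3 | h3
      · exact Or.inl ⟨h2, h3⟩
      · exact absurd (I.trans h2 h3) hQ
    · rcases h3 with h3 | h3
      · exact absurd (I.trans h2 h3) hQ'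
      · exact Or.inr ⟨h2, h3⟩
  · intro h2
    exact h2.2 ⟨⟨I.rfl' x, I.rfl' x⟩, ⟨I.rfl' y, I.rfl' y⟩⟩
  · intro U hU a b hab hn
    have h2 : (I.Q a x ∧ I.Q x a) ∧ (I.Q b y ∧ I.Q y b) := by
      by_contra hcon
      exact hn ⟨U.2.2.2 _ _ hab, hcon⟩
    refine sup_gen hS h2.1.1 ⟨U.2.2.1 _ _ h2.2.2, I.le h2.2.2, fun h4 => hQ h4.1.2⟩

/-- fewer members relate `x`, `y` in both directions than in no direction, if the class of `x` is an
antichain with a third element `z` -/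
theorem both_lt [Finite X] (hac : ∀ u v, I.S v u → I.Q u v → I.Q v u) {x y z : X} (hS : I.S x y)
    (hS' : I.S y x) (hQ : ¬ I.Q x y) (hxz : I.S x z) (hzx : I.S z x) (hz : ¬ I.Q x z)
    (hz' : ¬ I.Q y z) :
    Nat.card {U : I.T // U.1 x y ∧ U.1 y x} < Nat.card {U : I.T // ¬ U.1 x y ∧ ¬ U.1 y x} := by
  classical
  have hQ' : ¬ I.Q y x := fun h => hQ (hac y x hS h)
  have := Fintype.ofFinite I.T
  rw [Nat.card_eq_fintype_card, Nat.card_eq_fintype_card]
  -- the map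
  let E : I.T → X → Prop := fun U v => U.1 y v ∧ U.1 v y ∧ ¬ I.Q v y
  let A : X → Prop := fun u => I.Q u y ∧ I.Q y u
  have hbig : ∀ U : I.T, ∀ w, U.1 y w → U.1 w y → A w ∨ E U w := by
    intro U w h1 h2
    by_cases h3 : I.Q w y
    · exact Or.inl ⟨h3, hac w y (U.2.2.2 _ _ h1) h3⟩
    · exact Or.inr ⟨h1, h2, h3⟩
  let Φ : I.T → I.T := fun U => I.mk' (fun u v => U.1 u v ∧ ¬ (A u ∧ E U v) ∧ ¬ (E U u ∧ A v))
    (fun u w v h2 h3 => by
      refine ⟨U.2.1 _ _ _ h2.1 h3.1, fun h4 => ?_, fun h4 => ?_⟩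
      · have h5 : U.1 y w := U.2.1 _ _ _ (U.2.2.1 _ _ h4.1.2) h2.1
        have h6 : U.1 w y := U.2.1 _ _ _ h3.1 h4.2.2.1
        rcases hbig U w h5 h6 with h7 | h7
        · exact h3.2.1 ⟨h7, h4.2⟩
        · exact h2.2.1 ⟨h4.1, h7⟩
      · have h5 : U.1 y w := U.2.1 _ _ _ h4.1.1 h2.1
        have h6 : U.1 w y := U.2.1 _ _ _ h3.1 (U.2.2.1 _ _ h4.2.1)
        rcases hbig U w h5 h6 with h7 | h7
        · exact h2.2.2 ⟨h4.1, h7⟩
        · exact h3.2.2 ⟨h7, h4.2⟩)
    (fun u v h2 => ⟨U.2.2.1 _ _ h2, fun h3 => h3.2.2.2 (hac y v (U.2.2.2 _ _ h3.2.2.1)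
      (I.trans h3.1.2 h2)), fun h3 => h3.1.2.2 (I.trans h2 h3.2.1)⟩)
    (fun u v h2 => U.2.2.2 _ _ h2.1)
  have hΦ : ∀ U : I.T, ∀ u v, (Φ U).1 u v ↔ (U.1 u v ∧ ¬ (A u ∧ E U v) ∧ ¬ (E U u ∧ A v)) :=
    fun U u v => Iff.rfl
  have hAy : A y := ⟨I.rfl' y, I.rfl' y⟩
  have hAx : ¬ A x := fun h => hQ h.1
  have hmaps : ∀ U : {U : I.T // U.1 x y ∧ U.1 y x}, ¬ (Φ U.1).1 x y ∧ ¬ (Φ U.1).1 y x := by
    rintro ⟨U, h1, h2⟩
    have hE : E U x := ⟨h2, h1, hQ⟩
    exact ⟨fun h => h.2.2 ⟨hE, hAy⟩, fun h => h.2.1 ⟨hAy, hE⟩⟩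
  let F : {U : I.T // U.1 x y ∧ U.1 y x} → {U : I.T // ¬ U.1 x y ∧ ¬ U.1 y x} :=
    fun U => ⟨Φ U.1, hmaps U⟩
  have hinj : Function.Injective F := by
    intro U V hUV
    have h1 : Φ U.1 = Φ V.1 := congrArg Subtype.val hUV
    let φ : X → X := fun u => if A u then x else u
    have hφ : ∀ u, ¬ A (φ u) := by
      intro u
      by_cases h : A u
      · simp only [φ, if_pos h]; exact hAx
      · simp only [φ, if_neg h]; exact h
    have key : ∀ W : I.T, W.1 x y → W.1 y x → ∀ u v, W.1 u v ↔ (Φ W).1 (φ u) (φ v) := by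
      intro W h2 h3 u v
      have h4 : ∀ u, W.1 u (φ u) ∧ W.1 (φ u) u := by
        intro u
        by_cases h : A u
        · simp only [φ, if_pos h]
          exact ⟨W.2.1 _ _ _ (W.2.2.1 _ _ h.1) h3, W.2.1 _ _ _ h2 (W.2.2.1 _ _ h.2)⟩
        · simp only [φ, if_neg h]
          exact ⟨T.refl W u, T.refl W u⟩
      have h5 : W.1 u v ↔ W.1 (φ u) (φ v) :=
        ⟨fun h => W.2.1 _ _ _ (h4 u).2 (W.2.1 _ _ _ h (h4 v).1),
          fun h => W.2.1 _ _ _ (h4 u).1 (W.2.1 _ _ _ h (h4 v).2)⟩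
      rw [h5, hΦ]
      exact ⟨fun h => ⟨h, fun h6 => hφ u h6.1, fun h6 => hφ v h6.2⟩, fun h => h.1⟩
    apply Subtype.ext
    apply Subtype.ext
    funext u v
    apply propext
    rw [key U.1 U.2.1 U.2.2, key V.1 V.2.1 V.2.2, h1]
  have hyz : I.S y z := I.strans hS' hxz
  refine Fintype.card_lt_of_injective_of_notMem F hinj (b := ⟨gen hyz, ?_, ?_⟩) ?_
  · rintro (h | h)
    · exact hQ h
    · exact hQ h.1
  · rintro (h | h)
    · exact hQ' h
    · exact hz (hac z x hxz h.2)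
  · rintro ⟨U, hU⟩
    have h1 : Φ U.1 = gen hyz := congrArg Subtype.val hU
    have h2 : (Φ U.1).1 y z := by rw [h1]; exact gen_self hyz
    have h3 : (Φ U.1).1 x z := by
      rw [hΦ]
      exact ⟨U.1.2.1 _ _ _ U.2.1 h2.1, fun h => hAx h.1, fun h => hz' h.2.2⟩
    rw [h1, gen_iff] at h3
    rcases h3 with h3 | h3
    · exact hz h3
    · exact hQ h3.1

/-- case 2: an antichain with at least three elements -/
theorem case_two' [Finite X] (hac : ∀ u v, I.S v u → I.Q u v → I.Q v u) {x y z : X} (hS : I.S x y)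
    (hS' : I.S y x) (hQ : ¬ I.Q x y) (hxz : I.S x z) (hzx : I.S z x) (hz : ¬ I.Q x z)
    (hz' : ¬ I.Q y z) : Strong I.T := by
  classical
  have hQ' : ¬ I.Q y x := fun h => hQ (hac y x hS h)
  have hlt := both_lt hac hS hS' hQ hxz hzx hz hz'
  have := Fintype.ofFinite I.T
  have hirr : ∀ {a b : X} (h : I.S a b), ¬ I.Q a b → ¬ I.Q b a → SupIrred (gen h) := by
    intro a b h h1 h2
    refine gen_supIrred h h1 (fun w h3 h4 => ?_)
    rcases h3 with h3 | h3
    · rcases h4 with h4 | h4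
      · exact Or.inl ⟨h3, h4⟩
      · exact absurd (I.trans h3 h4) h1
    · rcases h4 with h4 | h4
      · exact absurd (I.trans h3 h4) h2
      · exact Or.inr ⟨h3, h4⟩
  simp only [Nat.card_eq_fintype_card, Fintype.card_subtype] at hlt
  have e1 := Finset.card_filter_add_card_filter_not (s := (Finset.univ : Finset I.T)) (fun U => U.1 x y)
  have e2 := Finset.card_filter_add_card_filter_not
    (s := (Finset.univ : Finset I.T).filter (fun U => U.1 x y)) (fun U => U.1 y x)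
  have e3 := Finset.card_filter_add_card_filter_not
    (s := (Finset.univ : Finset I.T).filter (fun U => ¬ U.1 x y)) (fun U => U.1 y x)
  have e4 := Finset.card_filter_add_card_filter_not (s := (Finset.univ : Finset I.T)) (fun U => U.1 y x)
  have e5 := Finset.card_filter_add_card_filter_not
    (s := (Finset.univ : Finset I.T).filter (fun U => U.1 y x)) (fun U => U.1 x y)
  simp only [Finset.filter_filter] at e2 e3 e5
  have e6 : (Finset.univ.filter fun U : I.T => U.1 y x ∧ U.1 x y) =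
      Finset.univ.filter fun U : I.T => U.1 x y ∧ U.1 y x := by
    ext U; simp [and_comm]
  have e7 : (Finset.univ.filter fun U : I.T => U.1 y x ∧ ¬ U.1 x y) =
      Finset.univ.filter fun U : I.T => ¬ U.1 x y ∧ U.1 y x := by
    ext U; simp [and_comm]
  rw [e6, e7] at e5
  have hcard : ∀ {a b : X} (h : I.S a b), Nat.card {U : I.T // gen h ≤ U} =
      (Finset.univ.filter fun U : I.T => U.1 a b).card := by
    intro a b h
    rw [Nat.card_eq_fintype_card, Fintype.card_subtype]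
    congr 1
    ext U
    simp only [Finset.mem_filter, Finset.mem_univ, true_and]
    exact gen_le h
  have htot : Nat.card I.T = (Finset.univ : Finset I.T).card := by
    rw [Nat.card_eq_fintype_card, Finset.card_univ]
  rcases le_total (Finset.univ.filter fun U : I.T => U.1 x y ∧ ¬ U.1 y x).card
    (Finset.univ.filter fun U : I.T => ¬ U.1 x y ∧ U.1 y x).card with h | h
  · refine ⟨gen hS, hirr hS hQ hQ', ?_⟩
    rw [hcard, htot]
    omega
  · refine ⟨gen hS', hirr hS' hQ' hQ, ?_⟩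
    rw [hcard, htot]
    omega

/-- **Every interval in the lattice of the preorders on a finite set is good.** -/
theorem good [Finite X] (I : Itv X) : Good I.T := by
  classical
  induction hn : {p : X × X | I.S p.1 p.2 ∧ ¬ I.Q p.1 p.2}.ncard using Nat.strong_induction_on
    generalizing I with
  | _ n ih =>
  have ih' : ∀ {x y : X} (h : I.S x y), ¬ I.Q x y → Good (above (gen h)).T := by
    intro x y h hQ
    refine ih _ ?_ (above (gen h)) rfl
    rw [← hn]
    have hsub : {p : X × X | (above (gen h)).S p.1 p.2 ∧ ¬ (above (gen h)).Q p.1 p.2} ⊆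
        {p : X × X | I.S p.1 p.2 ∧ ¬ I.Q p.1 p.2} := fun p hp => ⟨hp.1, fun h2 => hp.2 (Or.inl h2)⟩
    have hss : {p : X × X | (above (gen h)).S p.1 p.2 ∧ ¬ (above (gen h)).Q p.1 p.2} ⊂
        {p : X × X | I.S p.1 p.2 ∧ ¬ I.Q p.1 p.2} := by
      rw [Set.ssubset_iff_of_subset hsub]
      exact ⟨(x, y), ⟨h, hQ⟩, fun h2 => h2.2 (gen_self h)⟩
    exact Set.ncard_lt_ncard hss (Set.toFinite _)
  by_cases h1 : ∃ x y, I.S x y ∧ I.Q y x ∧ ¬ I.Q x y
  · exact case_one h1 ih'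
  have hac : ∀ u v, I.S v u → I.Q u v → I.Q v u := by
    intro u v h2 h3
    by_contra hcon
    exact h1 ⟨v, u, h2, h3, hcon⟩
  by_cases h2 : ∃ x y, I.S x y ∧ I.S y x ∧ ¬ I.Q x y
  · obtain ⟨x, y, hS, hS', hQ⟩ := h2
    by_cases h3 : ∀ z, I.S x z → I.S z x → (I.Q z x ∧ I.Q x z) ∨ (I.Q z y ∧ I.Q y z)
    · exact case_two hac hS hS' hQ h3 ih'
    · push Not at h3
      obtain ⟨z, hxz, hzx, h4, h5⟩ := h3
      refine Or.inl (case_two' hac hS hS' hQ hxz hzx (fun h6 => h4 (hac x z hzx h6) h6)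
        (fun h6 => h5 (hac y z (I.strans hzx hS) h6) h6))
  by_cases h3 : ∃ x y, I.S x y ∧ ¬ I.Q x y
  · refine case_three (fun x y h4 h5 => ?_) h3 ih'
    by_contra hcon
    exact h2 ⟨x, y, h4, h5, hcon⟩
  · have : Subsingleton I.T := by
      constructor
      intro U V
      apply Subtype.ext
      funext x y
      apply propext
      have h4 : I.S x y → I.Q x y := fun h => by
        by_contra hcon
        exact h3 ⟨x, y, h, hcon⟩
      exact ⟨fun h => V.2.2.1 _ _ (h4 (U.2.2.2 _ _ h)), fun h => U.2.2.1 _ _ (h4 (V.2.2.2 _ _ h))⟩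
    exact good_of_subsingleton

end Pool.Agent.Helper65.PO
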