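import Pool.Agent.Helper65.PO.Main

/-!
# Topologies on a finite set and preorders (helper65)
-/

set_option autoImplicit false

namespace Pool.Agent.Helper65.PO

open Pool.Agent.R636.FL Pool.Agent.H8K1.CL
open scoped Topology

universe u

variable {X : Type u}

/-- the preorder of a topology: every open set that contains `x` contains `y` -/
def rel (t : TopologicalSpace X) (x y : X) : Prop := ∀ U : Set X, IsOpen[t] U → x ∈ U → y ∈ U

theorem rel_refl (t : TopologicalSpace X) (x : X) : rel t x x := fun _ _ h => h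

theorem rel_trans (t : TopologicalSpace X) {x y z : X} (h1 : rel t x y) (h2 : rel t y z) :
    rel t x z := fun U hU hx => h2 U hU (h1 U hU hx)

/-- the topology of the sets closed under a relation -/
def top (r : X → X → Prop) : TopologicalSpace X where
  IsOpen U := ∀ x y, r x y → x ∈ U → y ∈ U
  isOpen_univ := fun _ _ _ _ => trivial
  isOpen_inter := fun _ _ h1 h2 x y h3 h4 => ⟨h1 x y h3 h4.1, h2 x y h3 h4.2⟩
  isOpen_sUnion := fun A h x y h3 h4 => by
    obtain ⟨U, hU, hx⟩ := h4
    exact ⟨U, hU, h U hU x y h3 hx⟩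

theorem isOpen_top {r : X → X → Prop} {U : Set X} :
    IsOpen[top r] U ↔ ∀ x y, r x y → x ∈ U → y ∈ U := Iff.rfl

theorem rel_top {r : X → X → Prop} (h1 : ∀ x, r x x) (h2 : ∀ x y z, r x y → r y z → r x z) :
    rel (top r) = r := by
  funext x y
  apply propext
  constructor
  · intro h
    exact h {z | r x z} (isOpen_top.2 (fun a b hab ha => h2 _ _ _ ha hab)) (h1 x)
  · intro h U hU hx
    exact isOpen_top.1 hU x y h hx

theorem isOpen_iff_rel [Finite X] (t : TopologicalSpace X) {U : Set X} :
    IsOpen[t] U ↔ ∀ x y, rel t x y → x ∈ U → y ∈ U := by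
  constructor
  · intro hU x y hxy hx
    exact hxy U hU hx
  · intro h
    have h1 : U = ⋃ x ∈ U, ⋂₀ {V | IsOpen[t] V ∧ x ∈ V} := by
      ext y
      simp only [Set.mem_iUnion, Set.mem_sInter, Set.mem_setOf_eq, exists_prop]
      constructor
      · intro hy
        exact ⟨y, hy, fun V hV => hV.2⟩
      · rintro ⟨x, hx, hxy⟩
        exact h x y (fun V hV hxV => hxy V ⟨hV, hxV⟩) hx
    rw [h1]
    letI := t
    refine isOpen_biUnion (fun x _ => ?_)
    exact Set.Finite.isOpen_sInter (Set.toFinite _) (fun V hV => hV.1)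

theorem top_rel [Finite X] (t : TopologicalSpace X) : top (rel t) = t := by
  apply TopologicalSpace.ext
  funext U
  apply propext
  exact (isOpen_iff_rel t).symm

theorem rel_le [Finite X] {t s : TopologicalSpace X} : t ≤ s ↔ ∀ x y, rel t x y → rel s x y := by
  constructor
  · intro h x y hxy U hU hx
    exact hxy U (h U hU) hx
  · intro h U hU
    exact (isOpen_iff_rel t).2 (fun x y hxy hx => (isOpen_iff_rel s).1 hU x y (h x y hxy) hx)

/-- the interval of a pair of topologies -/
def ofTop (t s : TopologicalSpace X) (h : ∀ x y, rel t x y → rel s x y) : Itv X where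
  Q := rel t
  S := rel s
  rfl' := rel_refl t
  trans := fun h1 h2 => rel_trans t h1 h2
  strans := fun h1 h2 => rel_trans s h1 h2
  le := fun h1 => h _ _ h1

/-- the interval of topologies is the interval of preorders -/
def topIso [Finite X] (t s : TopologicalSpace X) (h : ∀ x y, rel t x y → rel s x y) :
    (ofTop t s h).T ≃o Set.Icc t s where
  toFun r := ⟨top r.1, by
      rw [Set.mem_Icc]
      have h1 : rel (top r.1) = r.1 := rel_top (T.refl r) r.2.1
      constructor
      · rw [rel_le, h1]
        exact fun x y h2 => r.2.2.1 x y h2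
      · rw [rel_le, h1]
        exact fun x y h2 => r.2.2.2 x y h2⟩
  invFun p := ⟨rel p.1, fun _ _ _ h1 h2 => rel_trans _ h1 h2, rel_le.1 p.2.1, rel_le.1 p.2.2⟩
  left_inv r := Subtype.ext (rel_top (T.refl r) r.2.1)
  right_inv p := Subtype.ext (top_rel p.1)
  map_rel_iff' {r r'} := by
    have h1 : rel (top r.1) = r.1 := rel_top (T.refl r) r.2.1
    have h2 : rel (top r'.1) = r'.1 := rel_top (T.refl r') r'.2.1
    show top r.1 ≤ top r'.1 ↔ _
    rw [rel_le, h1, h2]
    exact Iff.rfl

/-- `Good` for intervals of topologies -/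
theorem good_top [Finite X] (t s : TopologicalSpace X) (h : t ≤ s) :
    ∃ (L : Type u) (_ : Lattice L) (_ : OrderBot L) (_ : Finite L), Good L ∧
      Nonempty (L ≃o Set.Icc t s) :=
  ⟨(ofTop t s (rel_le.1 h)).T, inferInstance, inferInstance, inferInstance,
    good _, ⟨topIso t s (rel_le.1 h)⟩⟩

end Pool.Agent.Helper65.PO
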